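import Pool.Agent.H13.PairUp

set_option autoImplicit false

namespace Pool.Agent.Results.MP_7e7d68_co.Order

open Pool.Agent.H13.Pairing Filter

theorem result :
    ∃ n₀ : ℕ, ∀ n : ℕ, n₀ ≤ n →
      1 / 20 * Real.sqrt (n * Real.log n) ≤ (lam n : ℝ) ∧
        (lam n : ℝ) ≤ 56 * Real.sqrt (n * Real.log n) := by
  have h := (Real.tendsto_log_atTop.comp tendsto_natCast_atTop_atTop).eventually_ge_atTop 150
  obtain ⟨n₀, hn⟩ := eventually_atTop.1 h
  exact ⟨n₀, fun n h => ⟨lower' n (hn n h), upper n (hn n h)⟩⟩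

end Pool.Agent.Results.MP_7e7d68_co.Order
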